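import Pool.Agent.Helper397.HK.CurveD

/-!
# The filtration of Voisin on zero-cycles of hyper-Kähler varieties and rational maps

Let `Y` be a smooth projective variety over `ℂ` with an everywhere nondegenerate regular 2-form
`σ`, let `Y'` be a projective variety with a regular 2-form `σ'`, and let `f : Y ⇢ Y'` be a
rational map with `f^* σ' = c σ`, `c ≠ 0`. If `Y` and `Y'` are hyper-Kähler varieties of the same
dimension, then all dominant rational maps have this property. Then the action `T` of `f` on the
Chow groups of zero-cycles maps the `i`-th step of the filtration of Voisin of `Y` into the `i`-th
step of the filtration of `Y'`, and onto it, if `f` is birational.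

The proof is in the files `Pool/Agent/Helper397/HK/`. Let `W` be a closed subvariety of `Y` of
dimension `d`, contained in an orbit. One considers the generic arc on `Y` through the
generic point of `W`, whose velocity is the generic normal vector; the image of this
arc has a limit `w'`. The comparison of the orders of vanishing of the Gram determinants of `σ` and
of `σ'` along the arc shows that the locus of `w'` has dimension at least `d`, and it is contained
in an orbit: by a moving argument on curves in the closure of the graph of `f`, the map `T` maps
the class of `w` to the class of `w'` for all points `(w, w')` of this closure.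
-/

set_option autoImplicit false

open Pool.Agent.Helper397.HK

namespace Pool.Agent.Results.MP_0db677_ag.BirationalInvariance

/-- The filtration of Voisin is preserved by rational maps which are compatible with the
2-forms, and it is invariant under birational maps. -/
theorem result {N N' : ℕ} (Y : ProjVar N) (Y' : ProjVar N') (hY : Y.IsSmooth) (σ : TwoForm Y)
    (hσ : σ.Nondegenerate) (σ' : TwoForm Y') (f : RatMap Y Y') (c : ℂ) (hc : c ≠ 0)
    (hf : f.PullsBack σ' c σ) (T : CH0 Y →ₗ[ℚ] CH0 Y') (hT : f.ActsBy T) (n i : ℕ) :
    (SBV Y n i).map T ≤ SBV Y' n i ∧
      ((∃ g : RatMap Y' Y, f.LeftInv g) → Y'.IsSmooth → σ'.Nondegenerate → Function.Bijective T →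
        (SBV Y n i).map T = SBV Y' n i) :=
  SBV_rational hY hσ hc hf T hT n i

end Pool.Agent.Results.MP_0db677_ag.BirationalInvariance
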